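import Pool.Agent.R284.GE.Stm

set_option autoImplicit false
open MeasureTheory Filter Topology

namespace Pool.Agent.R284.GE.ATOM2h241

theorem act_smul {d e : ℕ} (M : Matrix (Fin d) (Fin e) ℤ) (s : ℝ) (v : Fin e → ℝ) :
    act M (s • v) = s • act M v := Matrix.mulVec_smul _ _ _

theorem act_add {d e : ℕ} (M : Matrix (Fin d) (Fin e) ℤ) (v w : Fin e → ℝ) :
    act M (v + w) = act M v + act M w := Matrix.mulVec_add _ _ _

theorem pr_zero {d : ℕ} : pr (0 : Fin d → ℝ) = 0 := by
  funext i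
  simp [pr]

theorem norm_pr_le {d : ℕ} (v : Fin d → ℝ) : ‖pr v‖ ≤ ‖v‖ := by
  have h := dist_pr_le v 0
  rw [pr_zero, dist_zero_right, sub_zero] at h
  exact h

theorem pr_eq_zero {d : ℕ} {v : Fin d → ℝ} (h : pr v = 0) (hv : ‖v‖ < 1) : v = 0 := by
  funext i
  have h1 : ((v i : ℝ) : UnitAddCircle) = 0 := congrFun h i
  rw [AddCircle.coe_eq_zero_iff] at h1
  obtain ⟨z, hz⟩ := h1
  have hz' : (z : ℝ) = v i := by simpa using hz
  have h2 : |v i| < 1 := lt_of_le_of_lt (norm_le_pi_norm v i) hv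
  rw [← hz'] at h2
  have h3 : |z| < 1 := by exact_mod_cast h2
  have h4 : z = 0 := Int.abs_lt_one_iff.1 h3
  rw [← hz', h4]
  simp

theorem TM_zero {d : ℕ} (M : Matrix (Fin d) (Fin d) ℤ) : TM M (0 : Tor d) = 0 := by
  funext i
  simp [TM]

theorem core {d : ℕ} (A : Matrix (Fin d) (Fin d) ℤ) (hA : A.det ≠ 0) (N p : ℕ) (hN : 1 ≤ N)
    (hp : 1 ≤ p) (u : Fin d → ℝ) (hu : u ≠ 0) (z : Fin d → ℤ) (huz : act (A ^ p) u = u + iv z)
    (S : Finset ℕ) (jm : ℕ) (ε : ℝ) (hjm : (N : ℝ) * ‖act (A ^ jm) u‖ < 1)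
    (hsm : ∀ j < p, j ∉ S → (N : ℝ) * ‖act (A ^ j) u‖ ≤ ε) (hcard : (S.card : ℝ) ≤ ε * p) :
    ∃ ν : Measure (Tor d), IsProbabilityMeasure ν ∧ ν.map (TM A) = ν ∧
    (ν {x | ε < ‖x‖}).toReal ≤ ε ∧ ∀ x, (ν {x}).toReal ≤ 1 / N := by
  classical
  let w : ℕ → Fin d → ℝ := fun i => act (A ^ i) u
  have hwS : ∀ i, act A (w i) = w (i + 1) := by
    intro i
    show act A (act (A ^ i) u) = act (A ^ (i + 1)) u
    rw [← act_mul, pow_succ']
  have hw0 : w 0 = u := by
    show act (A ^ 0) u = u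
    rw [pow_zero]
    have h2 : rm (1 : Matrix (Fin d) (Fin d) ℤ) = 1 := by
      have h3 : rm (1 : Matrix (Fin d) (Fin d) ℤ) = (Int.castRingHom ℝ).mapMatrix 1 := rfl
      rw [h3, map_one]
    rw [act, h2, Matrix.one_mulVec]
  let y : ℕ → ℕ → Tor d := fun i j => pr (((i : ℝ) + 1) • w j)
  have hyS : ∀ i j, TM A (y i j) = y i (j + 1) := by
    intro i j
    show TM A (pr (((i : ℝ) + 1) • w j)) = pr (((i : ℝ) + 1) • w (j + 1))
    rw [TM_pr, act_smul, hwS]
  have hyp : ∀ i, y i p = y i 0 := by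
    intro i
    show pr (((i : ℝ) + 1) • act (A ^ p) u) = pr (((i : ℝ) + 1) • w 0)
    rw [huz, hw0, smul_add]
    have : ((i : ℝ) + 1) • (iv z : Fin d → ℝ) = iv (fun k => ((i : ℤ) + 1) * z k) := by
      funext k
      simp [iv]
    rw [this, pr_iv]
  -- multiples of `u` are distinct
  have hdist : ∀ (l : ℤ), |l| ≤ (N : ℤ) → l ≠ 0 → ∀ j ≤ p, pr ((l : ℝ) • w j) ≠ 0 := by
    intro l hl hl0 j hj h0
    have h1 : ∀ q, pr ((l : ℝ) • w (j + q)) = 0 := by
      intro q
      induction q with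
      | zero => exact h0
      | succ q ih =>
        rw [← add_assoc, ← hwS, ← act_smul, ← TM_pr, ih, TM_zero]
    have h2 := h1 (p - j)
    rw [Nat.add_sub_cancel' hj] at h2
    have h3 : pr ((l : ℝ) • w 0) = 0 := by
      rw [← h2, hw0]
      show pr ((l : ℝ) • u) = pr ((l : ℝ) • act (A ^ p) u)
      rw [huz, smul_add]
      have : (l : ℝ) • (iv z : Fin d → ℝ) = iv (fun k => l * z k) := by
        funext k
        simp [iv]
      rw [this, pr_iv]
    have h4 : ∀ q, pr ((l : ℝ) • w q) = 0 := by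
      intro q
      induction q with
      | zero => exact h3
      | succ q ih =>
        rw [← hwS, ← act_smul, ← TM_pr, ih, TM_zero]
    have h5 := pr_eq_zero (h4 jm) (by
      rw [norm_smul]
      refine lt_of_le_of_lt (mul_le_mul_of_nonneg_right ?_ (norm_nonneg _)) hjm
      rw [Real.norm_eq_abs]
      exact_mod_cast hl)
    have h6 : w jm = 0 := by
      rcases smul_eq_zero.1 h5 with h | h
      · exact absurd (by exact_mod_cast h) hl0
      · exact h
    have h7 : (rm (A ^ jm)).det ≠ 0 := by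
      have h3 : rm (A ^ jm) = (Int.castRingHom ℝ).mapMatrix (A ^ jm) := rfl
      rw [h3, ← RingHom.map_det, Matrix.det_pow, map_pow]
      exact pow_ne_zero _ (by simpa using hA)
    exact hu (Matrix.eq_zero_of_mulVec_eq_zero h7 h6)
  let mu : ℕ → Measure (Tor d) := fun j => ∑ i ∈ Finset.range N, Measure.dirac (y i j)
  have hmuS : ∀ j, (mu j).map (TM A) = mu (j + 1) := by
    intro j
    ext T hT
    show ((∑ i ∈ Finset.range N, Measure.dirac (y i j)).map (TM A)) T = (∑ i ∈ Finset.range N, Measure.dirac (y i (j+1))) T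
    rw [Measure.map_apply (measurable_TM A) hT, Measure.finsetSum_apply, Measure.finsetSum_apply]
    refine Finset.sum_congr rfl fun i _ => ?_
    rw [Measure.dirac_apply' _ (measurable_TM A hT), Measure.dirac_apply' _ hT, ← hyS]
    rfl
  have hmun : mu p = mu 0 := by
    show ∑ i ∈ Finset.range N, Measure.dirac (y i p) = ∑ i ∈ Finset.range N, Measure.dirac (y i 0)
    exact Finset.sum_congr rfl fun i _ => by rw [hyp]
  have hNp : N * p ≠ 0 := by positivity
  have hn0 : ((N * p : ℕ) : ENNReal) ≠ 0 := by exact_mod_cast hNp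
  have hnt : ((N * p : ℕ) : ENNReal) ≠ ⊤ := ENNReal.natCast_ne_top _
  let nu : Measure (Tor d) := ((N * p : ℕ) : ENNReal)⁻¹ • ∑ j ∈ Finset.range p, mu j
  have hnu : ∀ T : Set (Tor d), nu T = ((N * p : ℕ) : ENNReal)⁻¹ * ∑ j ∈ Finset.range p, mu j T := by
    intro T
    show (((N * p : ℕ) : ENNReal)⁻¹ • ∑ i ∈ Finset.range p, mu i) T = _
    rw [Measure.smul_apply, Measure.finsetSum_apply, smul_eq_mul]
  have hmu : ∀ j (T : Set (Tor d)), mu j T = ∑ i ∈ Finset.range N, Measure.dirac (y i j) T := by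
    intro j T
    show (∑ i ∈ Finset.range N, Measure.dirac (y i j)) T = _
    rw [Measure.finsetSum_apply]
  have hbd : ∀ (T : Set (Tor d)) (m : ℕ), ∑ j ∈ Finset.range p, mu j T ≤ (m : ENNReal) →
      (nu T).toReal ≤ (m : ℝ) / ((N : ℝ) * p) := by
    intro T m h
    have h1 : nu T ≤ ((N * p : ℕ) : ENNReal)⁻¹ * (m : ENNReal) := by
      rw [hnu]
      exact mul_le_mul_right h _
    have h2 : ((N * p : ℕ) : ENNReal)⁻¹ * (m : ENNReal) ≠ ⊤ :=
      ENNReal.mul_ne_top (ENNReal.inv_ne_top.2 hn0) (ENNReal.natCast_ne_top m)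
    refine (ENNReal.toReal_mono h2 h1).trans (le_of_eq ?_)
    rw [ENNReal.toReal_mul, ENNReal.toReal_inv, ENNReal.toReal_natCast, ENNReal.toReal_natCast]
    push_cast
    rw [div_eq_inv_mul]
  have hN0 : (0 : ℝ) < N := by exact_mod_cast hN
  have hp0 : (0 : ℝ) < p := by exact_mod_cast hp
  refine ⟨nu, ⟨?_⟩, ?_, ?_, ?_⟩
  · rw [hnu]
    have h1 : ∀ j ∈ Finset.range p, mu j Set.univ = (N : ENNReal) := by
      intro j _
      rw [hmu]
      simp
    rw [Finset.sum_congr rfl h1]
    simp only [Finset.sum_const, Finset.card_range, nsmul_eq_mul]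
    rw [← Nat.cast_mul, mul_comm p N]
    exact ENNReal.inv_mul_cancel hn0 hnt
  · show (((N * p : ℕ) : ENNReal)⁻¹ • ∑ i ∈ Finset.range p, mu i).map (TM A) = ((N * p : ℕ) : ENNReal)⁻¹ • ∑ i ∈ Finset.range p, mu i
    rw [Measure.map_smul]
    congr 1
    ext T hT
    rw [Measure.map_apply (measurable_TM A) hT, Measure.finsetSum_apply, Measure.finsetSum_apply]
    have h1 : ∀ i ∈ Finset.range p, mu i (TM A ⁻¹' T) = mu (i+1) T := by
      intro i _
      rw [← hmuS i, Measure.map_apply (measurable_TM A) hT]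
    rw [Finset.sum_congr rfl h1]
    obtain ⟨m, rfl⟩ : ∃ m, p = m + 1 := ⟨p - 1, by omega⟩
    rw [Finset.sum_range_succ, hmun, Finset.sum_range_succ' (fun i => mu i T)]
  · have h1 : ∑ j ∈ Finset.range p, mu j {x | ε < ‖x‖} ≤ ((N * S.card : ℕ) : ENNReal) := by
      have h2 : ∀ j ∈ Finset.range p, mu j {x | ε < ‖x‖} ≤ if j ∈ S then (N : ENNReal) else 0 := by
        intro j hj
        rw [hmu]
        split_ifs with h
        · calc ∑ i ∈ Finset.range N, Measure.dirac (y i j) {x | ε < ‖x‖} ≤ ∑ i ∈ Finset.range N, (1 : ENNReal) :=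
              Finset.sum_le_sum fun i _ => prob_le_one
            _ = N := by simp
        · refine le_of_eq (Finset.sum_eq_zero fun i hi => ?_)
          rw [Measure.dirac_apply' _ (measurableSet_lt measurable_const measurable_norm)]
          apply Set.indicator_of_notMem
          intro hmem
          have h3 : ε < ‖pr (((i : ℝ) + 1) • w j)‖ := hmem
          have h4 := norm_pr_le (((i : ℝ) + 1) • w j)
          rw [norm_smul, Real.norm_eq_abs, abs_of_nonneg (by positivity)] at h4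
          have h5 : (i : ℝ) + 1 ≤ N := by exact_mod_cast Finset.mem_range.1 hi
          have h6 := mul_le_mul_of_nonneg_right h5 (norm_nonneg (w j))
          have h7 := hsm j (Finset.mem_range.1 hj) h
          have h8 : (N : ℝ) * ‖w j‖ ≤ ε := h7
          linarith
      refine (Finset.sum_le_sum h2).trans ?_
      rw [← Finset.sum_filter, Finset.sum_const, nsmul_eq_mul, ← Nat.cast_mul]
      have h3 : ((Finset.range p).filter (· ∈ S)).card ≤ S.card :=
        Finset.card_le_card fun j hj => (Finset.mem_filter.1 hj).2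
      have h4 : ((Finset.range p).filter (· ∈ S)).card * N ≤ N * S.card := by
        rw [mul_comm]; exact Nat.mul_le_mul_left _ h3
      exact_mod_cast h4
    refine (hbd _ _ h1).trans ?_
    rw [div_le_iff₀ (by positivity)]
    push_cast
    nlinarith
  · intro x
    have h1 : ∑ j ∈ Finset.range p, mu j {x} ≤ ((p : ℕ) : ENNReal) := by
      have h2 : ∀ j ∈ Finset.range p, mu j {x} ≤ 1 := by
        intro j hj
        rw [hmu]
        have h3 : ∀ i ∈ Finset.range N, Measure.dirac (y i j) {x} = if y i j = x then (1 : ENNReal) else 0 := by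
          intro i _
          rw [Measure.dirac_apply' _ (measurableSet_singleton x)]
          simp only [Set.indicator_apply, Set.mem_singleton_iff, Pi.one_apply]
        rw [Finset.sum_congr rfl h3, ← Finset.sum_filter, Finset.sum_const, nsmul_eq_mul, mul_one]
        have h4 : ((Finset.range N).filter (fun i => y i j = x)).card ≤ 1 := by
          rw [Finset.card_le_one]
          intro a ha b hb
          rw [Finset.mem_filter, Finset.mem_range] at ha hb
          by_contra hab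
          have h5 : pr (((((a : ℤ) - b : ℤ)) : ℝ) • w j) = 0 := by
            have h6 : pr (((a : ℝ) + 1) • w j) = pr (((b : ℝ) + 1) • w j) := ha.2.trans hb.2.symm
            have h7 : ((a : ℝ) + 1) • w j = (((a : ℤ) - b : ℤ) : ℝ) • w j + ((b : ℝ) + 1) • w j := by
              rw [← add_smul]
              congr 1
              push_cast
              ring
            rw [h7, pr_add] at h6
            exact add_eq_right.1 h6
          refine hdist ((a : ℤ) - b) ?_ ?_ j (Finset.mem_range.1 hj).le h5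
          · rw [abs_le]; omega
          · omega
        exact_mod_cast h4
      refine (Finset.sum_le_sum h2).trans ?_
      simp
    refine (hbd _ _ h1).trans ?_
    rw [div_le_div_iff₀ (by positivity) (by positivity)]
    nlinarith


theorem main (hSP : S_SPLIT) (hRES : S_RES) (hEFF : S_EFF) : S_ATOM2 := by
  classical
  intro d A N ε hd hA hN hε hNRU
  obtain ⟨Ps, Pc, Pu, hspl⟩ := hSP d A hA
  obtain ⟨θ, hθ0, hθ1, hres⟩ := hRES d A Ps Pc Pu hA hNRU hspl
  obtain ⟨C2, K, hC2, hK, heff⟩ := hEFF d A Ps Pc Pu hd hA hNRU hspl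
  have hL : 0 < -Real.log θ := by
    have := Real.log_neg hθ0 hθ1
    linarith
  obtain ⟨γ, hγ0, hγ1, hγ2⟩ : ∃ γ : ℝ, 0 < γ ∧ γ ≤ 1 / 8 ∧ γ ≤ ε / 8 := by
    refine ⟨min (1 / 8) (ε / 8), lt_min (by norm_num) (by positivity), min_le_left _ _, min_le_right _ _⟩
  obtain ⟨τ, hτ0, hτ⟩ : ∃ τ : ℝ, 0 < τ ∧ τ + 2 * K * τ ≤ γ * (-Real.log θ) := by
    refine ⟨γ * (-Real.log θ) / (1 + 2 * K), by positivity, le_of_eq ?_⟩
    field_simp
    ring
  obtain ⟨C, hC, hp⟩ := hres τ hτ0 1 le_rfl
  obtain ⟨e, he0, he1, he2⟩ : ∃ e : ℝ, 0 < e ∧ e ≤ 1 / 2 ∧ e ≤ ε := by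
    refine ⟨min (1 / 2) ε, lt_min (by norm_num) hε, min_le_left _ _, min_le_right _ _⟩
  obtain ⟨p0, hp0⟩ := exists_nat_ge (3 * N * C * C2 / (τ * e) + 4 / ε + 4)
  obtain ⟨p, hpp, hp1, -, hpu⟩ := hp p0
  have hN0 : (0 : ℝ) < N := by exact_mod_cast hN
  have hpr : (p0 : ℝ) ≤ p := by exact_mod_cast hpp
  have hT1 : 0 ≤ 3 * N * C * C2 / (τ * e) := by positivity
  have hT2 : 0 ≤ 4 / ε := by positivity
  have hpA : 3 * N * C * C2 / (τ * e) ≤ p := by linarith
  have hpB : 4 / ε ≤ p := by linarith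
  have hpC : (4 : ℝ) ≤ p := by linarith
  have hppos : (0 : ℝ) < p := by linarith
  have hδ0 : 0 < Real.exp (-(2 * τ * p)) := Real.exp_pos _
  have hδ1 : Real.exp (-(2 * τ * p)) < 1 := by
    rw [Real.exp_lt_one_iff]
    have : 0 < 2 * τ * p := by positivity
    linarith
  obtain ⟨-, z, hz0, hzc, hzn⟩ := heff _ hδ0 hδ1
  have hpow : Real.exp (-(2 * τ * p)) ^ (-K) = Real.exp (2 * K * τ * p) := by
    rw [← Real.exp_mul]
    congr 1
    ring
  rw [hpow] at hzn
  -- the vector `u`
  have hdet : (rm (A ^ p - 1)).det ≠ 0 := by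
    have h3 : rm (A ^ p - 1) = (Int.castRingHom ℝ).mapMatrix (A ^ p - 1) := rfl
    rw [h3, ← RingHom.map_det]
    simpa using hNRU p hp1
  let u : Fin d → ℝ := ((rm (A ^ p - 1))⁻¹).mulVec (iv z)
  have hu : act (A ^ p - 1) u = iv z := by
    show (rm (A ^ p - 1)).mulVec (((rm (A ^ p - 1))⁻¹).mulVec (iv z)) = iv z
    rw [Matrix.mulVec_mulVec, Matrix.mul_nonsing_inv _ (isUnit_iff_ne_zero.2 hdet), Matrix.one_mulVec]
  have hivz : (iv z : Fin d → ℝ) ≠ 0 := by
    intro h
    apply hz0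
    funext i
    have := congrFun h i
    simpa [iv] using this
  have hu0 : u ≠ 0 := by
    intro h
    rw [h] at hu
    apply hivz
    rw [← hu]
    exact Matrix.mulVec_zero _
  have huz : act (A ^ p) u = u + iv z := by
    have h1 : rm (A ^ p - 1) = rm (A ^ p) - 1 := by
      have h2 : rm (A ^ p - 1) = (Int.castRingHom ℝ).mapMatrix (A ^ p - 1) := rfl
      rw [h2, map_sub, map_one]
      rfl
    have h4 : act (A ^ p - 1) u = act (A ^ p) u - u := by
      rw [act, h1, Matrix.sub_mulVec, Matrix.one_mulVec]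
      rfl
    rw [h4] at hu
    rw [← hu]
    abel
  have hb := hpu (iv z) u hu
  let g : ℕ := ⌈γ * p⌉₊
  have hg1 : γ * p ≤ g := Nat.le_ceil _
  have hg2 : (g : ℝ) < γ * p + 1 := Nat.ceil_lt_add_one (by positivity)
  have hexp : Real.exp (-(τ * p)) ≤ e / (3 * N * C * C2) := by
    have h1 : τ * p ≤ Real.exp (τ * p) := by
      have := Real.add_one_le_exp (τ * p)
      linarith
    have h2 : 3 * N * C * C2 ≤ e * (τ * p) := by
      rw [div_le_iff₀ (by positivity)] at hpA
      linarith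
    rw [Real.exp_neg, le_div_iff₀ (by positivity), inv_mul_le_iff₀ (Real.exp_pos _)]
    calc 3 * N * C * C2 ≤ e * (τ * p) := h2
      _ ≤ e * Real.exp (τ * p) := mul_le_mul_of_nonneg_left h1 he0.le
      _ = Real.exp (τ * p) * e := mul_comm _ _
  have hθg : ∀ j : ℕ, g ≤ j → θ ^ j * Real.exp (2 * K * τ * p) ≤ Real.exp (-(τ * p)) := by
    intro j hj
    have h1 : θ ^ j = Real.exp (j * Real.log θ) := by
      rw [← Real.log_pow, Real.exp_log (pow_pos hθ0 j)]
    rw [h1, ← Real.exp_add, Real.exp_le_exp]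
    have h2 : γ * p ≤ j := hg1.trans (by exact_mod_cast hj)
    have h3 : γ * p * (-Real.log θ) ≤ j * (-Real.log θ) := mul_le_mul_of_nonneg_right h2 hL.le
    have h4 := mul_le_mul_of_nonneg_right hτ hppos.le
    nlinarith
  have hsmall : ∀ j ≤ p, g ≤ j → g ≤ p - j → (N : ℝ) * ‖act (A ^ j) u‖ ≤ e := by
    intro j hj h1 h2
    have h3 := hb j hj
    have h4 := hθg j h1
    have h5 := hθg (p - j) h2
    have h6 : (θ ^ j + θ ^ (p - j)) * ‖(iv z : Fin d → ℝ)‖ ≤ 2 * C2 * Real.exp (-(τ * p)) := by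
      have h7 : (θ ^ j + θ ^ (p - j)) * ‖(iv z : Fin d → ℝ)‖ ≤
          (θ ^ j + θ ^ (p - j)) * (C2 * Real.exp (2 * K * τ * p)) :=
        mul_le_mul_of_nonneg_left hzn (by positivity)
      have h8 : (θ ^ j + θ ^ (p - j)) * (C2 * Real.exp (2 * K * τ * p)) =
          C2 * (θ ^ j * Real.exp (2 * K * τ * p) + θ ^ (p - j) * Real.exp (2 * K * τ * p)) := by ring
      rw [h8] at h7
      refine h7.trans ?_
      have h9 : C2 * (θ ^ j * Real.exp (2 * K * τ * p) + θ ^ (p - j) * Real.exp (2 * K * τ * p)) ≤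
          C2 * (Real.exp (-(τ * p)) + Real.exp (-(τ * p))) :=
        mul_le_mul_of_nonneg_left (add_le_add h4 h5) (by linarith)
      linarith
    have h7 : Real.exp (τ * p) * ‖Pc.mulVec (iv z)‖ ≤ Real.exp (-(τ * p)) := by
      have h8 := mul_le_mul_of_nonneg_left hzc (Real.exp_pos (τ * p)).le
      rw [← Real.exp_add] at h8
      refine h8.trans (le_of_eq ?_)
      congr 1
      ring
    have h8 : ‖act (A ^ j) u‖ ≤ C * (2 * C2 * Real.exp (-(τ * p)) + Real.exp (-(τ * p))) :=
      h3.trans (mul_le_mul_of_nonneg_left (add_le_add h6 h7) (by linarith))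
    have h9 : C * (2 * C2 * Real.exp (-(τ * p)) + Real.exp (-(τ * p))) ≤ 3 * C * C2 * Real.exp (-(τ * p)) := by
      have h10 : 2 * C2 * Real.exp (-(τ * p)) + Real.exp (-(τ * p)) ≤ 3 * C2 * Real.exp (-(τ * p)) := by
        nlinarith [Real.exp_pos (-(τ * p))]
      have h11 := mul_le_mul_of_nonneg_left h10 (show (0 : ℝ) ≤ C by linarith)
      linarith
    have h10 : 3 * C * C2 * Real.exp (-(τ * p)) ≤ 3 * C * C2 * (e / (3 * N * C * C2)) :=
      mul_le_mul_of_nonneg_left hexp (by positivity)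
    have h11 : (N : ℝ) * (3 * C * C2 * (e / (3 * N * C * C2))) = e := by
      have : C ≠ 0 := by positivity
      have : C2 ≠ 0 := by positivity
      field_simp
    calc (N : ℝ) * ‖act (A ^ j) u‖ ≤ N * (3 * C * C2 * (e / (3 * N * C * C2))) :=
        mul_le_mul_of_nonneg_left (h8.trans (h9.trans h10)) hN0.le
      _ = e := h11
  refine core A hA N p hN hp1 u hu0 z huz
    (Finset.range g ∪ (Finset.range g).image (fun i => p - i)) (p / 2) ε ?_ ?_ ?_
  · have h1 : (g : ℝ) < (p : ℝ) / 8 + 1 := by nlinarith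
    have h2 : 8 * g < p + 8 := by
      have : (8 * g : ℝ) < p + 8 := by linarith
      exact_mod_cast this
    have h3 : 4 ≤ p := by exact_mod_cast hpC
    have := hsmall (p / 2) (Nat.div_le_self _ _) (by omega) (by omega)
    linarith
  · intro j hj hjS
    rw [Finset.mem_union, not_or, Finset.mem_range, not_lt] at hjS
    refine (hsmall j hj.le hjS.1 ?_).trans he2
    by_contra hcon
    apply hjS.2
    rw [Finset.mem_image]
    exact ⟨p - j, Finset.mem_range.2 (by omega), by omega⟩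
  · have h1 : (Finset.range g ∪ (Finset.range g).image (fun i => p - i)).card ≤ g + g := by
      refine (Finset.card_union_le _ _).trans (add_le_add (by simp) ?_)
      exact Finset.card_image_le.trans (by simp)
    have h2 : ((Finset.range g ∪ (Finset.range g).image (fun i => p - i)).card : ℝ) ≤ g + g := by
      exact_mod_cast h1
    have h3 : γ * p ≤ ε / 8 * p := mul_le_mul_of_nonneg_right hγ2 hppos.le
    have h4 : 4 ≤ p * ε := by
      rw [div_le_iff₀ hε] at hpB
      exact hpB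
    nlinarith

end Pool.Agent.R284.GE.ATOM2h241
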